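import Pool.Agent.Y687.N.Defs

/-! NEG-FORM (job 2800, helper929 for helper687): forms of discriminant one as factorizations -/

set_option autoImplicit false

namespace Pool.Agent.Y929.N.FORM

open Finset Pool.Agent.Y687.N

/-- the form attached to the data -/
def fw (n : ℕ) (x : ℤ) (w : Σ _ : ℕ, ℕ × ℕ) : ℤ × ℤ × ℤ :=
  ((w.2.1 : ℤ) * w.2.2,
    -((w.2.1 : ℤ) * (((w.2.2 : ℤ) * x + (((n - w.1) / w.2.1 : ℕ) : ℤ)) / n) +
      w.2.2 * (((w.2.1 : ℤ) * x - ((w.1 / w.2.2 : ℕ) : ℤ)) / n)),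
    (((w.2.1 : ℤ) * x - ((w.1 / w.2.2 : ℕ) : ℤ)) / n) *
      (((w.2.2 : ℤ) * x + (((n - w.1) / w.2.1 : ℕ) : ℤ)) / n))

/-- the facts about the data -/
structure Fc (n : ℕ) (x : ℤ) (T a a' : ℕ) (X Y : ℕ) (c c' : ℤ) : Prop where
  hT : T = a' * X
  hS : n - T = a * Y
  h3 : (a : ℤ) * Y + a' * X = n
  pa : 0 < a
  pa' : 0 < a'
  pX : 0 < X
  pY : 0 < Y
  ha : 2 ∣ a
  ha' : 7 ∣ a'
  hc : (a : ℤ) * x - X = n * c
  hc' : (a' : ℤ) * x + Y = n * c'
  dt : (a : ℤ) * c' - a' * c = 1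

theorem facts {n : ℕ} (hn : 0 < n) {x : ℤ} {T a a' : ℕ} (h : (⟨T, (a, a')⟩ : Σ _ : ℕ, ℕ × ℕ) ∈ Om 7 n)
    (hC : Cd n x ⟨T, (a, a')⟩) : ∃ X Y : ℕ, ∃ c c' : ℤ, Fc n x T a a' X Y c c' ∧
      fw n x ⟨T, (a, a')⟩ = ((a : ℤ) * a', -(a * c' + a' * c), c * c') := by
  unfold Om at h
  simp only [Finset.mem_sigma, Finset.mem_filter, Finset.mem_range, Finset.mem_product,
    Nat.mem_divisors] at h
  obtain ⟨hT, ⟨⟨h1, h2⟩, h3⟩, ⟨h4, h5⟩, h6⟩ := h
  obtain ⟨Y, hY⟩ := h1
  obtain ⟨X, hX⟩ := h4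
  have pa : 0 < a := by
    rcases Nat.eq_zero_or_pos a with h | h
    · subst h; simp at hY; omega
    · exact h
  have pa' : 0 < a' := by
    rcases Nat.eq_zero_or_pos a' with h | h
    · subst h; simp at hX; exact absurd hX h5
    · exact h
  have eX : T / a' = X := by rw [hX]; exact Nat.mul_div_cancel_left _ pa'
  have eY : (n - T) / a = Y := by rw [hY]; exact Nat.mul_div_cancel_left _ pa
  have pX : 0 < X := by
    rcases Nat.eq_zero_or_pos X with h | h
    · subst h; simp at hX; exact absurd hX h5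
    · exact h
  have pY : 0 < Y := by
    rcases Nat.eq_zero_or_pos Y with h | h
    · subst h; simp at hY; omega
    · exact h
  have e3 : (a : ℤ) * Y + a' * X = n := by
    have : a * Y + a' * X = n := by omega
    exact_mod_cast this
  unfold Cd at hC
  simp only at hC
  rw [eX, eY] at hC
  obtain ⟨⟨k, hk⟩, ⟨k', hk'⟩⟩ := hC
  have hn' : (n : ℤ) ≠ 0 := by exact_mod_cast hn.ne'
  refine ⟨X, Y, k, k', ⟨hX, hY, e3, pa, pa', pX, pY, h3, h6, hk, hk', ?_⟩, ?_⟩
  · apply mul_left_cancel₀ hn'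
    linear_combination e3 - a * hk' + a' * hk
  · unfold fw
    simp only
    rw [eX, eY, hk, hk', Int.mul_ediv_cancel_left _ hn', Int.mul_ediv_cancel_left _ hn']

theorem fwd_mem {n : ℕ} {x : ℤ} {T a a' X Y : ℕ} {c c' : ℤ}
    (f : Fc n x T a a' X Y c c') :
    F1 ((a : ℤ) * a', -(a * c' + a' * c), c * c') ∧ 0 < (a : ℤ) * a' ∧
      ev ((a : ℤ) * a', -(a * c' + a' * c), c * c') x n < 0 := by
  obtain ⟨k, hk⟩ := f.ha
  obtain ⟨l, hl⟩ := f.ha'
  have hk' : (a : ℤ) = 2 * k := by rw [hk]; push_cast; ring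
  have hl' : (a' : ℤ) = 7 * l := by rw [hl]; push_cast; ring
  refine ⟨⟨?_, ?_, ?_⟩, mul_pos (by exact_mod_cast f.pa) (by exact_mod_cast f.pa'), ?_⟩
  · simp only
    linear_combination (a * c' - a' * c + 1) * f.dt
  · simp only
    exact ⟨k * l, by rw [hk', hl']; ring⟩
  · simp only
    have h1 := f.dt
    rw [hk', hl'] at h1 ⊢
    -- `2 (k c') - 7 (l c) = 1`
    have h2 : (2 : ℤ) * k * c' = 1 + 7 * l * c := by linarith
    have h3 : -((2 : ℤ) * k * c' + 7 * l * c) = -1 - 14 * (l * c) := by linear_combination -h2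
    rw [h3]
    have h4 : (l * c) % 2 = 1 := by
      have : (2 : ℤ) * (k * c') = 1 + 7 * (l * c) := by linear_combination h2
      omega
    omega
  · have h1 : ev ((a : ℤ) * a', -(a * c' + a' * c), c * c') x n = -(X * Y) := by
      unfold ev
      linear_combination ((a' : ℤ) * x - n * c') * f.hc + (X : ℤ) * f.hc'
    rw [h1]
    have : (0 : ℤ) < X * Y := mul_pos (by exact_mod_cast f.pX) (by exact_mod_cast f.pY)
    linarith

/-- injectivity -/
theorem inj {n : ℕ} {x : ℤ} {T a a' X Y : ℕ} {c c' : ℤ} {T1 a1 a1' X1 Y1 : ℕ} {c1 c1' : ℤ}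
    (f : Fc n x T a a' X Y c c') (g : Fc n x T1 a1 a1' X1 Y1 c1 c1')
    (h1 : (a : ℤ) * a' = a1 * a1') (h2 : -(a * c' + a' * c) = -(a1 * c1' + a1' * c1)) :
    T = T1 ∧ a = a1 ∧ a' = a1' := by
  have e1 : (a' : ℤ) * c = a1' * c1 := by
    have := f.dt
    have := g.dt
    linarith
  have key : ∀ {T a a' X Y : ℕ} {c c' : ℤ}, Fc n x T a a' X Y c c' →
      Int.gcd ((a : ℤ) * a') (a' * c) = a' := by
    intro T a a' X Y c c' f
    have hco : Int.gcd (a : ℤ) c = 1 := by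
      rw [← Int.isCoprime_iff_gcd_eq_one]
      exact ⟨c', -a', by linear_combination f.dt⟩
    rw [mul_comm (a : ℤ) (a' : ℤ), Int.gcd_mul_left, hco, mul_one, Int.natAbs_natCast]
  have e2 : a' = a1' := by
    have k1 := key f
    have k2 := key g
    rw [h1, e1, k2] at k1
    exact k1.symm
  have pa1 : (a1' : ℤ) ≠ 0 := by exact_mod_cast g.pa'.ne'
  subst e2
  have e3 : (a : ℤ) = a1 := mul_right_cancel₀ pa1 h1
  have e4 : a = a1 := by exact_mod_cast e3
  have e5 : c = c1 := mul_left_cancel₀ pa1 e1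
  have e6 : (X : ℤ) = X1 := by
    have k1 := f.hc
    have k2 := g.hc
    rw [e3, e5] at k1
    linarith
  have e7 : X = X1 := by exact_mod_cast e6
  exact ⟨by rw [f.hT, g.hT, e7], e4, rfl⟩

/-- surjectivity -/
theorem surj {n : ℕ} (hn : 0 < n) {x A B C : ℤ} (hF : F1 (A, B, C)) (hA : 0 < A)
    (hev : ev (A, B, C) x n < 0) :
    ∃ w ∈ Om 7 n, Cd n x w ∧ fw n x w = (A, B, C) := by
  obtain ⟨hd, h14, h28⟩ := hF
  simp only at hd h14 h28
  -- `u = (B + 1) / 2`, `v = (B - 1) / 2`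
  obtain ⟨v, hv⟩ : ∃ v, B = 2 * v + 1 := ⟨B / 2, by omega⟩
  have huv : (v + 1) * v = A * C := by
    have : 4 * ((v + 1) * v) = 4 * (A * C) := by
      rw [hv] at hd
      linear_combination hd
    linarith
  have hg0 : Int.gcd A (v + 1) ≠ 0 := by
    intro h
    exact hA.ne' (Int.gcd_eq_zero_iff.1 h).1
  obtain ⟨a, ha⟩ := Int.gcd_dvd_left (a := A) (b := v + 1)
  obtain ⟨c, hc⟩ := Int.gcd_dvd_right (a := A) (b := v + 1)
  set a' := Int.gcd A (v + 1) with ha'def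
  have pa' : (0 : ℤ) < a' := by exact_mod_cast Nat.pos_of_ne_zero hg0
  have pa : 0 < a := by
    by_contra hcon
    push Not at hcon
    rw [ha] at hA
    nlinarith
  have hco : IsCoprime a c := by
    rw [Int.isCoprime_iff_gcd_eq_one]
    have h1 : Int.gcd ((a' : ℤ) * a) ((a' : ℤ) * c) = a' * Int.gcd a c := by
      rw [Int.gcd_mul_left, Int.natAbs_natCast]
    rw [← ha, ← hc, ← ha'def] at h1
    have h2 : a' * 1 = a' * Int.gcd a c := by rw [mul_one]; exact h1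
    exact (Nat.eq_of_mul_eq_mul_left (Nat.pos_of_ne_zero hg0) h2).symm
  have hcv : a * C = c * v := by
    apply mul_left_cancel₀ pa'.ne'
    rw [ha, hc] at huv
    linear_combination -huv
  obtain ⟨e, he⟩ : a ∣ v := hco.dvd_of_dvd_mul_left ⟨C, hcv.symm⟩
  have hC : C = c * e := by
    apply mul_left_cancel₀ pa.ne'
    rw [hcv, he]
    ring
  -- `c -> -c`, `c' = -e`
  have hdt : -(a * e) + a' * c = 1 := by linear_combination he - hc
  obtain ⟨X, hX⟩ : ∃ X, X = a * x + c * n := ⟨_, rfl⟩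
  obtain ⟨Y, hY⟩ : ∃ Y, Y = -(e * n) - a' * x := ⟨_, rfl⟩
  have hXY : a * Y + a' * X = n := by
    rw [hX, hY]
    linear_combination (n : ℤ) * hdt
  have hev2 : 0 < X * Y := by
    have : ev (A, B, C) x n = -(X * Y) := by
      unfold ev
      simp only
      rw [hX, hY, hC, ha]
      have hB : B = a' * c + a * e := by rw [hv]; linear_combination he + hc
      rw [hB]
      ring
    rw [this] at hev
    linarith
  have hn' : (0 : ℤ) < n := by exact_mod_cast hn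
  have hX0 : 0 < X := by
    by_contra hcon
    push Not at hcon
    have hY0 : Y ≤ 0 := by
      by_contra hcon2
      push Not at hcon2
      nlinarith
    nlinarith
  have hY0 : 0 < Y := by
    by_contra hcon
    push Not at hcon
    nlinarith
  obtain ⟨a₀, rfl⟩ := Int.eq_ofNat_of_zero_le pa.le
  obtain ⟨X₀, rfl⟩ := Int.eq_ofNat_of_zero_le hX0.le
  obtain ⟨Y₀, rfl⟩ := Int.eq_ofNat_of_zero_le hY0.le
  have na : 0 < a₀ := by exact_mod_cast pa
  have nX : 0 < X₀ := by exact_mod_cast hX0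
  have nY : 0 < Y₀ := by exact_mod_cast hY0
  have na' : 0 < a' := by exact_mod_cast pa'
  have hXYn : a₀ * Y₀ + a' * X₀ = n := by exact_mod_cast hXY
  have k1 : n - a' * X₀ = a₀ * Y₀ := by omega
  have eX : a' * X₀ / a' = X₀ := Nat.mul_div_cancel_left _ na'
  have eY : (n - a' * X₀) / a₀ = Y₀ := by rw [k1]; exact Nat.mul_div_cancel_left _ na
  -- the divisibilities
  have hB : B = 2 * (a' * c) - 1 := by rw [hv]; linear_combination 2 * hc
  have hac : (a' * c) % 14 = 7 := by omega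
  have hodd : ((a' : ℤ) * c) % 2 = 1 := by omega
  have hae : ((a₀ : ℤ) * e) % 14 = 6 := by
    have : (a₀ : ℤ) * e = a' * c - 1 := by linarith
    rw [this]
    omega
  have h2a : 2 ∣ a₀ := by
    have h1 : (2 : ℤ) ∣ a' * a₀ := by rw [← ha]; exact Dvd.dvd.trans (by norm_num) h14
    rcases Int.prime_two.dvd_or_dvd h1 with h | h
    · exfalso
      have : (2 : ℤ) ∣ a' * c := Dvd.dvd.mul_right h _
      omega
    · exact_mod_cast h
  have h7a : 7 ∣ a' := by
    have h1 : (7 : ℤ) ∣ a' * a₀ := by rw [← ha]; exact Dvd.dvd.trans (by norm_num) h14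
    have h7p : Prime (7 : ℤ) := Int.prime_iff_natAbs_prime.2 (by norm_num)
    rcases h7p.dvd_or_dvd h1 with h | h
    · exact_mod_cast h
    · exfalso
      have : (7 : ℤ) ∣ a₀ * e := Dvd.dvd.mul_right h _
      omega
  have hk : (a₀ : ℤ) * x - X₀ = n * (-c) := by rw [hX]; ring
  have hk' : (a' : ℤ) * x + Y₀ = n * (-e) := by rw [hY]; ring
  refine ⟨⟨a' * X₀, (a₀, a')⟩, ?_, ?_, ?_⟩
  · unfold Om
    simp only [Finset.mem_sigma, Finset.mem_filter, Finset.mem_range, Finset.mem_product,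
      Nat.mem_divisors]
    have p1 : 0 < a₀ * Y₀ := Nat.mul_pos na nY
    have p2 : 0 < a' * X₀ := Nat.mul_pos na' nX
    refine ⟨by omega, ⟨⟨⟨Y₀, k1⟩, by omega⟩, h2a⟩, ⟨⟨X₀, rfl⟩, by omega⟩, h7a⟩
  · unfold Cd
    simp only
    rw [eX, eY]
    exact ⟨⟨-c, hk⟩, ⟨-e, hk'⟩⟩
  · unfold fw
    simp only
    rw [eX, eY, hk, hk', Int.mul_ediv_cancel_left _ hn'.ne', Int.mul_ediv_cancel_left _ hn'.ne']
    refine Prod.ext ?_ (Prod.ext ?_ ?_)
    · simp only
      rw [ha]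
      ring
    · simp only
      rw [hB]
      linear_combination -hdt
    · simp only
      rw [hC]
      ring

open Classical in
/-- the positive forms with a negative value -/
noncomputable def PP (n : ℕ) (x : ℤ) : Finset (ℤ × ℤ × ℤ) :=
  ((Om 7 n).filter fun w => Cd n x w).image (fw n x)

theorem mem_PP {n : ℕ} (hn : 0 < n) {x : ℤ} {q : ℤ × ℤ × ℤ} :
    q ∈ PP n x ↔ F1 q ∧ 0 < q.1 ∧ ev q x n < 0 := by
  unfold PP
  rw [Finset.mem_image]
  constructor
  · rintro ⟨⟨T, a, a'⟩, hw, rfl⟩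
    obtain ⟨h1, h2⟩ := Finset.mem_filter.1 hw
    obtain ⟨X, Y, c, c', hF, he⟩ := facts hn h1 h2
    rw [he]
    exact fwd_mem hF
  · rintro ⟨h1, h2, h3⟩
    obtain ⟨A, B, C⟩ := q
    obtain ⟨w, w1, w2, w3⟩ := surj hn h1 h2 h3
    exact ⟨w, Finset.mem_filter.2 ⟨w1, w2⟩, w3⟩

theorem card_PP {n : ℕ} (hn : 0 < n) (x : ℤ) : ((PP n x).card : ℤ) = Nq 7 n x := by
  unfold PP Nq
  rw [Finset.card_image_of_injOn]
  rintro ⟨T, a, a'⟩ hw ⟨T1, a1, a1'⟩ hw1 heq
  rw [Finset.mem_coe] at hw hw1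
  obtain ⟨h1, h2⟩ := Finset.mem_filter.1 hw
  obtain ⟨g1, g2⟩ := Finset.mem_filter.1 hw1
  obtain ⟨X, Y, c, c', hF, he⟩ := facts hn h1 h2
  obtain ⟨X1, Y1, c1, c1', hF1, he1⟩ := facts hn g1 g2
  rw [he, he1] at heq
  obtain ⟨e1, e2⟩ := Prod.mk.injEq .. ▸ heq
  obtain ⟨e3, e4⟩ := Prod.mk.injEq .. ▸ e2
  obtain ⟨r1, r2, r3⟩ := inj hF hF1 e1 e3
  subst r1 r2 r3
  rfl

/-- the reflection -/
def ρ (q : ℤ × ℤ × ℤ) : ℤ × ℤ × ℤ := (-q.1, q.2.1, -q.2.2)

theorem ρ_ρ (q : ℤ × ℤ × ℤ) : ρ (ρ q) = q := by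
  obtain ⟨A, B, C⟩ := q
  simp [ρ]

theorem F1_ρ {q : ℤ × ℤ × ℤ} (h : F1 q) : F1 (ρ q) := by
  obtain ⟨A, B, C⟩ := q
  obtain ⟨h1, h2, h3⟩ := h
  refine ⟨?_, ?_, h3⟩
  · simp only [ρ] at h1 ⊢
    linear_combination h1
  · simp only [ρ] at h2 ⊢
    exact (dvd_neg).2 h2

theorem ev_ρ (q : ℤ × ℤ × ℤ) (x M : ℤ) : ev (ρ q) (-x) M = -ev q x M := by
  obtain ⟨A, B, C⟩ := q
  simp only [ρ, ev]
  ring

theorem ne_zero_of {n : ℕ} {x : ℤ} (hco : IsCoprime (14 * x) (n : ℤ)) {q : ℤ × ℤ × ℤ}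
    (hF : F1 q) : q.1 ≠ 0 ∧ ev q x n ≠ 0 := by
  obtain ⟨A, B, C⟩ := q
  obtain ⟨hd, h14, h28⟩ := hF
  simp only at hd h14 h28
  constructor
  · intro hA
    simp only at hA
    rw [hA] at hd
    have h1 : (B - 1) * (B + 1) = 0 := by linear_combination hd
    rcases mul_eq_zero.1 h1 with h | h <;> omega
  · intro he
    unfold ev at he
    simp only at he
    have h1 : (2 * A * x + B * n - n) * (2 * A * x + B * n + n) = 0 := by
      linear_combination (4 * A) * he + (n : ℤ) ^ 2 * hd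
    have hc14 : IsCoprime (14 : ℤ) n := hco.of_mul_left_left
    have hc28 : IsCoprime (28 : ℤ) n := by
      have h2 : IsCoprime (2 : ℤ) n := by
        rw [show (14 : ℤ) = 2 * 7 by norm_num] at hc14
        exact hc14.of_mul_left_left
      rw [show (28 : ℤ) = 2 * 14 by norm_num]
      exact h2.mul_left hc14
    obtain ⟨k, hk⟩ := h14
    rcases mul_eq_zero.1 h1 with h | h
    · have h2 : (28 : ℤ) ∣ (1 - B) * n := ⟨k * x, by rw [hk] at h; linear_combination -h⟩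
      have h3 := hc28.dvd_of_dvd_mul_right h2
      omega
    · have h2 : (28 : ℤ) ∣ (-1 - B) * n := ⟨k * x, by rw [hk] at h; linear_combination -h⟩
      have h3 := hc28.dvd_of_dvd_mul_right h2
      omega

theorem t_FORM : S_FORM := by
  classical
  intro n x ho hco
  have hn : 0 < n := ho.pos
  have hsupp : ∀ q : ℤ × ℤ × ℤ, F1 q → Int.sign (ev q x n) - Int.sign q.1 ≠ 0 →
      q ∈ PP n x ∨ q ∈ (PP n (-x)).image ρ := by
    intro q hF hne
    obtain ⟨h1, h2⟩ := ne_zero_of hco hF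
    rcases lt_or_gt_of_ne h1 with hA | hA
    · rcases lt_or_gt_of_ne h2 with hE | hE
      · rw [Int.sign_eq_neg_one_of_neg hA, Int.sign_eq_neg_one_of_neg hE] at hne
        exact absurd rfl hne
      · right
        refine Finset.mem_image.2 ⟨ρ q, ?_, ρ_ρ q⟩
        refine (mem_PP hn).2 ⟨F1_ρ hF, ?_, ?_⟩
        · show 0 < -q.1
          linarith
        · rw [ev_ρ]
          linarith
    · rcases lt_or_gt_of_ne h2 with hE | hE
      · left
        exact (mem_PP hn).2 ⟨hF, hA, hE⟩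
      · rw [Int.sign_eq_one_of_pos hA, Int.sign_eq_one_of_pos hE] at hne
        exact absurd rfl hne
  unfold G1
  rw [finsum_eq_sum_of_support_subset (s := PP n x ∪ (PP n (-x)).image ρ)]
  · rw [Finset.sum_union]
    · have k1 : ∀ q ∈ PP n x, (if F1 q then Int.sign (ev q x n) - Int.sign q.1 else 0) = -2 := by
        intro q hq
        obtain ⟨h1, h2, h3⟩ := (mem_PP hn).1 hq
        rw [if_pos h1, Int.sign_eq_one_of_pos h2, Int.sign_eq_neg_one_of_neg h3]
        norm_num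
      have k2 : ∀ q ∈ (PP n (-x)).image ρ,
          (if F1 q then Int.sign (ev q x n) - Int.sign q.1 else 0) = 2 := by
        intro q hq
        obtain ⟨r, hr, rfl⟩ := Finset.mem_image.1 hq
        obtain ⟨h1, h2, h3⟩ := (mem_PP hn).1 hr
        have h4 : ev (ρ r) x n = -ev r (-x) n := by
          have := ev_ρ r (-x) n
          rw [neg_neg] at this
          exact this
        have h5 : (ρ r).1 < 0 := by
          show -r.1 < 0
          linarith
        have h6 : 0 < ev (ρ r) x n := by rw [h4]; linarith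
        rw [if_pos (F1_ρ h1), Int.sign_eq_one_of_pos h6, Int.sign_eq_neg_one_of_neg h5]
        norm_num
      rw [Finset.sum_congr rfl k1, Finset.sum_congr rfl k2, Finset.sum_const, Finset.sum_const,
        Finset.card_image_of_injective _ (fun a b h => by rw [← ρ_ρ a, h, ρ_ρ])]
      unfold Fq
      rw [← card_PP hn, ← card_PP hn]
      simp only [nsmul_eq_mul]
      ring
    · rw [Finset.disjoint_left]
      intro q h1 h2
      obtain ⟨r, hr, rfl⟩ := Finset.mem_image.1 h2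
      obtain ⟨-, g2, -⟩ := (mem_PP hn).1 hr
      obtain ⟨-, g3, -⟩ := (mem_PP hn).1 h1
      have : (ρ r).1 = -r.1 := rfl
      linarith
  · intro q hq
    rw [Function.mem_support] at hq
    by_cases hF : F1 q
    · rw [if_pos hF] at hq
      have := hsupp q hF hq
      simpa using this
    · rw [if_neg hF] at hq
      exact absurd rfl hq

end Pool.Agent.Y929.N.FORM
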